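import Pool.Agent.LibMaier.Buchstab

/-!
The Buchstab function takes values above `exp (-γ)` on every interval of length one (mirror image
of `exists_buchstab_lt`).
-/

open Set MeasureTheory Filter Topology

namespace Pool.Agent.LibMaier

namespace Buch

lemma exists_gt {v : ℝ} (hv : 1 ≤ v) : ∃ u ∈ Set.Icc v (v+1), cg < bt u := by
  by_contra hcon
  push Not at hcon
  have hnn : ∀ t ∈ Set.Icc v (v+1), ww t ≤ 0 := fun t ht => by
    have := hcon t ht
    unfold ww
    linarith
  have hJ := jj_eq (u := v + 1) (by linarith)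
  unfold jj at hJ
  rw [add_sub_cancel_right] at hJ
  have h1 : ((v+1) * ww (v+1)) * q (v+1) ≤ 0 :=
    mul_nonpos_of_nonpos_of_nonneg
      (mul_nonpos_of_nonneg_of_nonpos (by linarith) (hnn _ ⟨by linarith, le_rfl⟩))
      (q_pos (by linarith)).le
  have hqt : ∀ t ∈ Set.Icc v (v+1), 0 < qt t := fun t ht => by
    rw [qt_eq (by linarith [ht.1])]
    exact q_pos (by linarith [ht.1])
  have h2 : 0 ≤ ∫ t in v..(v+1), ww t * qt t := by linarith
  obtain ⟨n, hn⟩ := exists_nat_gt v
  apply no_const n v hv (by linarith)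
  intro u hu
  by_contra hne
  have hpos : ww u < 0 := lt_of_le_of_ne (hnn u ⟨hu.1.le, hu.2.le⟩) (by
    intro h; apply hne; unfold ww at h; linarith)
  have hc : Continuous (fun t => -(ww t * qt t)) := (continuous_ww.mul continuous_qt).neg
  have h3 : 0 < ∫ t in v..(v+1), -(ww t * qt t) := by
    apply intervalIntegral.integral_pos (by linarith) hc.continuousOn
    · intro x hx
      exact neg_nonneg.2
        (mul_nonpos_of_nonpos_of_nonneg (hnn x ⟨hx.1.le, hx.2⟩) (hqt x ⟨hx.1.le, hx.2⟩).le)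
    · refine ⟨u, ⟨hu.1.le, hu.2.le⟩, ?_⟩
      exact neg_pos.2 (mul_neg_of_neg_of_pos hpos (hqt u ⟨hu.1.le, hu.2.le⟩))
  rw [intervalIntegral.integral_neg] at h3
  linarith

end Buch

/-- The Buchstab function takes values above exp(-gamma) on every interval of length one. -/
theorem exists_buchstab_gt {v : ℝ} (hv : 1 ≤ v) :
    ∃ u ∈ Set.Icc v (v+1), Real.exp (-Real.eulerMascheroniConstant) < buchstab u := by
  obtain ⟨u, hu, h⟩ := Buch.exists_gt hv
  refine ⟨u, hu, ?_⟩
  rw [← Buch.bt_eq (by linarith [hu.1])]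
  exact h

end Pool.Agent.LibMaier
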