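import Mathlib
import Pool.Agent.LibMaier.RoughGeneral

/-!
Lower bound for the number of integers up to `z ^ u` without prime factor at most `z`, in terms of
a function `w` satisfying Buchstab's equation (mirror image of `RoughGeneral`).
-/

set_option autoImplicit false

namespace Pool.Agent.LibMaier

open Filter Topology Finset MeasureTheory

/-- A weighted sum against a density from below, by cutting the interval into `N` cells. -/
lemma integral_le_sum_aux {P : Finset ℕ} {wt s : ℕ → ℝ} {g φ : ℝ → ℝ} {A δ K η : ℝ} {N : ℕ}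
    (hδ : 0 ≤ δ) (hK : 0 ≤ K)
    (hwt : ∀ p ∈ P, 0 ≤ wt p)
    (hg0 : ∀ x ∈ Set.Icc A (A + N * δ), 0 ≤ g x)
    (hg1 : ∀ x ∈ Set.Icc A (A + N * δ), g x ≤ 1)
    (hgL : ∀ x ∈ Set.Icc A (A + N * δ), ∀ y ∈ Set.Icc A (A + N * δ), |g x - g y| ≤ K * |x - y|)
    (hφ0 : ∀ x ∈ Set.Icc A (A + N * δ), 0 ≤ φ x)
    (hφc : ContinuousOn φ (Set.Icc A (A + N * δ)))
    (hη : 0 ≤ η)
    (hcell : ∀ a b, A ≤ a → a ≤ b → b ≤ A + N * δ →
      (∫ x in a..b, φ x) - η ≤ ∑ p ∈ P with a < s p ∧ s p ≤ b, wt p) :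
    ∀ k : ℕ, k ≤ N → (∫ x in A..(A + k * δ), (g x - 2 * (K * δ)) * φ x) - k * η ≤
      ∑ p ∈ P with (A < s p ∧ s p ≤ A + k * δ), wt p * g (s p) := by
  have hgc : ContinuousOn g (Set.Icc A (A + N * δ)) := by
    have : LipschitzOnWith (Real.toNNReal K) g (Set.Icc A (A + N * δ)) := by
      apply LipschitzOnWith.of_dist_le_mul
      intro x hx y hy
      rw [Real.dist_eq, Real.dist_eq, Real.coe_toNNReal _ hK]
      exact hgL x hx y hy
    exact this.continuousOn
  intro k
  induction k with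
  | zero =>
    intro _
    have : (P.filter fun p => A < s p ∧ s p ≤ A + ((0 : ℕ) : ℝ) * δ) = ∅ := by
      apply Finset.filter_eq_empty_iff.2
      intro p hp h
      have h1 := h.1
      have h2 := h.2
      simp at h2
      linarith
    rw [this]
    simp
  | succ k ih =>
    intro hk
    have ih' := ih (by omega)
    have hkN : ((k : ℝ) + 1) ≤ N := by exact_mod_cast hk
    set a := A + k * δ with ha
    set b := A + ((k + 1 : ℕ) : ℝ) * δ with hb
    have hab : b = a + δ := by rw [hb, ha]; push_cast; ring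
    have hAa : A ≤ a := by rw [ha]; have : 0 ≤ (k : ℝ) * δ := by positivity
                           linarith
    have hbN : b ≤ A + N * δ := by
      rw [hb]; push_cast
      have := mul_le_mul_of_nonneg_right hkN hδ
      linarith
    have hable : a ≤ b := by rw [hab]; linarith
    have hsub : Set.uIcc a b ⊆ Set.Icc A (A + N * δ) := by
      rw [Set.uIcc_of_le hable]
      exact Set.Icc_subset_Icc hAa hbN
    have hsub' : Set.uIcc A a ⊆ Set.Icc A (A + N * δ) := by
      rw [Set.uIcc_of_le hAa]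
      exact Set.Icc_subset_Icc le_rfl (hable.trans hbN)
    have haI : a ∈ Set.Icc A (A + N * δ) := ⟨hAa, hable.trans hbN⟩
    have hint1 : IntervalIntegrable (fun x => (g x - 2 * (K * δ)) * φ x) volume A a :=
      (((hgc.mono hsub').sub continuousOn_const).mul (hφc.mono hsub')).intervalIntegrable
    have hint2 : IntervalIntegrable (fun x => (g x - 2 * (K * δ)) * φ x) volume a b :=
      (((hgc.mono hsub).sub continuousOn_const).mul (hφc.mono hsub)).intervalIntegrable
    have hint3 : IntervalIntegrable (fun x => (g a - K * δ) * φ x) volume a b :=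
      ((continuousOn_const).mul (hφc.mono hsub)).intervalIntegrable
    have hsplit : ∑ p ∈ P with (A < s p ∧ s p ≤ b), wt p * g (s p) =
        ∑ p ∈ P with (A < s p ∧ s p ≤ a), wt p * g (s p) +
        ∑ p ∈ P with a < s p ∧ s p ≤ b, wt p * g (s p) := by
      rw [← Finset.sum_union]
      · apply Finset.sum_congr _ (fun _ _ => rfl)
        ext p
        simp only [Finset.mem_union, Finset.mem_filter]
        constructor
        · rintro ⟨h1, h2, h3⟩
          rcases le_or_gt (s p) a with h | h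
          · exact Or.inl ⟨h1, h2, h⟩
          · exact Or.inr ⟨h1, h, h3⟩
        · rintro (⟨h1, h2, h3⟩ | ⟨h1, h2, h3⟩)
          · exact ⟨h1, h2, h3.trans hable⟩
          · exact ⟨h1, lt_of_le_of_lt hAa h2, h3⟩
      · rw [Finset.disjoint_left]
        intro p h1 h2
        rw [Finset.mem_filter] at h1 h2
        linarith [h1.2.2, h2.2.1]
    have hcellb : (∫ x in a..b, (g x - 2 * (K * δ)) * φ x) - η ≤
        ∑ p ∈ P with a < s p ∧ s p ≤ b, wt p * g (s p) := by
      have hKδ : 0 ≤ K * δ := mul_nonneg hK hδ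
      set c : ℝ := max 0 (g a - K * δ) with hc
      have hc0 : 0 ≤ c := le_max_left _ _
      have hc1 : c ≤ 1 := max_le (by norm_num) (by linarith [hg1 a haI])
      have hφi : 0 ≤ ∫ x in a..b, φ x := by
        apply intervalIntegral.integral_nonneg hable
        intro x hx
        exact hφ0 x ⟨hAa.trans hx.1, hx.2.trans hbN⟩
      have hφint : IntervalIntegrable φ volume a b := (hφc.mono hsub).intervalIntegrable
      calc (∫ x in a..b, (g x - 2 * (K * δ)) * φ x) - η
          ≤ (∫ x in a..b, (g a - K * δ) * φ x) - η := by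
            apply sub_le_sub_right
            apply intervalIntegral.integral_mono_on hable hint2 hint3
            intro x hx
            have hx' : x ∈ Set.Icc A (A + N * δ) := ⟨hAa.trans hx.1, hx.2.trans hbN⟩
            apply mul_le_mul_of_nonneg_right _ (hφ0 x hx')
            have h2 := (abs_le.1 (hgL x hx' a haI)).2
            have h3 : |x - a| ≤ δ := by
              rw [abs_le]; constructor <;> linarith [hx.1, hx.2]
            have h4 := mul_le_mul_of_nonneg_left h3 hK
            linarith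
        _ = (g a - K * δ) * (∫ x in a..b, φ x) - η := by
            rw [intervalIntegral.integral_const_mul]
        _ ≤ c * ((∫ x in a..b, φ x) - η) := by
            have h1 : (g a - K * δ) * (∫ x in a..b, φ x) ≤ c * (∫ x in a..b, φ x) :=
              mul_le_mul_of_nonneg_right (le_max_right _ _) hφi
            have h2 : c * η ≤ 1 * η := mul_le_mul_of_nonneg_right hc1 hη
            linarith
        _ ≤ c * ∑ p ∈ P with a < s p ∧ s p ≤ b, wt p :=
            mul_le_mul_of_nonneg_left (hcell a b hAa hable hbN) hc0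
        _ = ∑ p ∈ P with a < s p ∧ s p ≤ b, wt p * c := by
            rw [Finset.mul_sum]
            exact Finset.sum_congr rfl (fun p _ => mul_comm _ _)
        _ ≤ ∑ p ∈ P with a < s p ∧ s p ≤ b, wt p * g (s p) := by
            apply Finset.sum_le_sum
            intro p hp
            rw [Finset.mem_filter] at hp
            apply mul_le_mul_of_nonneg_left _ (hwt p hp.1)
            have h1 : s p ∈ Set.Icc A (A + N * δ) :=
              ⟨hAa.trans hp.2.1.le, hp.2.2.trans hbN⟩
            apply max_le (hg0 _ h1)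
            have h2 := (abs_le.1 (hgL a haI (s p) h1)).2
            have h3 : |a - s p| ≤ δ := by
              rw [abs_le]; constructor <;> linarith [hp.2.1, hp.2.2]
            have h4 := mul_le_mul_of_nonneg_left h3 hK
            linarith
    rw [hsplit, ← intervalIntegral.integral_add_adjacent_intervals hint1 hint2]
    push_cast
    linarith

/-- The recursion from below. -/
lemma rough_card_rec_ge {z : ℕ} {y : ℝ} (hz : (z : ℝ) ≤ y) (hz1 : 1 ≤ z) :
    (Nat.primeCounting ⌊y⌋₊ : ℝ) - (Nat.primeCounting z : ℝ) +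
      ∑ p ∈ midPrimes z ⌊y⌋₊, (((rough p ⌊y / p⌋₊).card : ℝ) - 1) ≤
      ((rough z ⌊y⌋₊).card : ℝ) := by
  classical
  have hy : 0 ≤ y := le_trans (Nat.cast_nonneg _) hz
  set N : ℕ := ⌊y⌋₊ with hN
  have hzN : z ≤ N := Nat.le_floor hz
  set A : Finset ℕ := (prs N).filter (fun p => z < p) with hA
  set B : ℕ → Finset ℕ := fun p => ((rough p (N / p)).erase 1).image (fun b => p * b) with hB
  have hsub : A ∪ (midPrimes z N).biUnion B ⊆ rough z N := by
    intro a ha
    rw [Finset.mem_union] at ha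
    rcases ha with h | h
    · rw [hA, Finset.mem_filter, mem_prs] at h
      obtain ⟨⟨h1, h2⟩, h3⟩ := h
      rw [rough, Finset.mem_filter, Finset.mem_Icc]
      refine ⟨⟨h2.pos, h1⟩, fun q hq hqp hqa => ?_⟩
      have := (Nat.prime_dvd_prime_iff_eq hqp h2).1 hqa
      omega
    · rw [Finset.mem_biUnion] at h
      obtain ⟨p, hp, h⟩ := h
      rw [mem_midPrimes] at hp
      rw [hB, Finset.mem_image] at h
      obtain ⟨b, hb, rfl⟩ := h
      rw [Finset.mem_erase, rough, Finset.mem_filter, Finset.mem_Icc] at hb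
      obtain ⟨hb1, ⟨hb2, hb3⟩, hb4⟩ := hb
      rw [rough, Finset.mem_filter, Finset.mem_Icc]
      refine ⟨⟨Nat.mul_pos hp.2.1.pos hb2, ?_⟩, fun q hq hqp hqa => ?_⟩
      · have := (Nat.le_div_iff_mul_le hp.2.1.pos).1 hb3
        rw [mul_comm]; exact this
      · rcases (Nat.Prime.dvd_mul hqp).1 hqa with h1 | h1
        · have := (Nat.prime_dvd_prime_iff_eq hqp hp.2.1).1 h1
          omega
        · exact hb4 q (by omega) hqp h1
  have hmin : ∀ p ∈ midPrimes z N, ∀ a ∈ B p, a.minFac = p ∧ ¬ a.Prime := by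
    intro p hp a ha
    rw [mem_midPrimes] at hp
    rw [hB, Finset.mem_image] at ha
    obtain ⟨b, hb, rfl⟩ := ha
    rw [Finset.mem_erase, rough, Finset.mem_filter, Finset.mem_Icc] at hb
    obtain ⟨hb1, ⟨hb2, hb3⟩, hb4⟩ := hb
    have hne : p * b ≠ 1 := by
      intro h
      have := Nat.eq_one_of_mul_eq_one_right h
      exact hp.2.1.one_lt.ne' this
    constructor
    · have hle : (p * b).minFac ≤ p := Nat.minFac_le_of_dvd hp.2.1.two_le (Dvd.intro _ rfl)
      have hpr := Nat.minFac_prime hne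
      rcases (Nat.Prime.dvd_mul hpr).1 (Nat.minFac_dvd (p * b)) with h1 | h1
      · exact (Nat.prime_dvd_prime_iff_eq hpr hp.2.1).1 h1
      · exact absurd h1 (hb4 _ hle hpr)
    · exact Nat.not_prime_mul hp.2.1.one_lt.ne' hb1
  have hdisj1 : Disjoint A ((midPrimes z N).biUnion B) := by
    rw [Finset.disjoint_left]
    intro a h1 h2
    rw [Finset.mem_biUnion] at h2
    obtain ⟨p, hp, h2⟩ := h2
    rw [hA, Finset.mem_filter, mem_prs] at h1
    exact (hmin p hp a h2).2 h1.1.2
  have hdisj2 : (↑(midPrimes z N) : Set ℕ).PairwiseDisjoint B := by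
    intro p hp q hq hpq
    rw [Function.onFun, Finset.disjoint_left]
    intro a h1 h2
    exact hpq ((hmin p hp a h1).1.symm.trans (hmin q hq a h2).1)
  have hcard := Finset.card_le_card hsub
  rw [Finset.card_union_of_disjoint hdisj1, Finset.card_biUnion hdisj2] at hcard
  have hAc : (Nat.primeCounting N : ℝ) - (Nat.primeCounting z : ℝ) ≤ (A.card : ℝ) := by
    have h1 : (prs N).card ≤ (prs z).card + A.card := by
      refine le_trans (Finset.card_le_card ?_) (Finset.card_union_le _ _)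
      intro p hp
      rw [Finset.mem_union]
      by_cases h : p ≤ z
      · left; rw [mem_prs]; exact ⟨h, (mem_prs.1 hp).2⟩
      · right; rw [hA, Finset.mem_filter]; exact ⟨hp, by omega⟩
    rw [card_prs, card_prs] at h1
    have h2 : (Nat.primeCounting N : ℝ) ≤ Nat.primeCounting z + A.card := by exact_mod_cast h1
    linarith
  have hBc : ∀ p ∈ midPrimes z N, ((rough p ⌊y / p⌋₊).card : ℝ) - 1 ≤ ((B p).card : ℝ) := by
    intro p hp
    have hp' := mem_midPrimes.1 hp
    have h5 : N / p = ⌊y / p⌋₊ := by rw [hN, Nat.floor_div_natCast]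
    have h6 : (B p).card = ((rough p (N / p)).erase 1).card := by
      rw [hB]
      apply Finset.card_image_of_injective
      intro a b hab
      exact Nat.eq_of_mul_eq_mul_left hp'.2.1.pos hab
    rw [h6, h5]
    have h7 : (rough p ⌊y / p⌋₊).card ≤ ((rough p ⌊y / p⌋₊).erase 1).card + 1 := by
      have := Finset.pred_card_le_card_erase (s := rough p ⌊y / p⌋₊) (a := 1)
      omega
    have h8 : ((rough p ⌊y / p⌋₊).card : ℝ) ≤ (((rough p ⌊y / p⌋₊).erase 1).card : ℝ) + 1 := by
      exact_mod_cast h7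
    linarith
  have hfin : (A.card : ℝ) + ∑ p ∈ midPrimes z N, ((B p).card : ℝ) ≤ ((rough z N).card : ℝ) := by
    exact_mod_cast hcard
  have := Finset.sum_le_sum hBc
  linarith

lemma mertens_cell_ge {η : ℝ} (hη : 0 < η) : ∃ z₀ : ℕ, 2 ≤ z₀ ∧ ∀ z : ℕ, z₀ ≤ z →
    ∀ y : ℝ, 0 < y → ∀ a b : ℝ, 1 ≤ a → a ≤ b → b ≤ Real.log y / Real.log z / 2 →
      (Real.log b - Real.log a) - η ≤
      ∑ p ∈ midPrimes z ⌊y⌋₊ with (a < Real.log ((p : ℕ) : ℝ) / Real.log z ∧
        Real.log (p : ℝ) / Real.log z ≤ b), 1 / (p : ℝ) := by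
  obtain ⟨M, hM⟩ := mertens_second
  obtain ⟨x0, hx0⟩ := eventually_atTop.1 (hM.eventually (Metric.ball_mem_nhds M (half_pos hη)))
  refine ⟨max 2 ⌈x0⌉₊, le_max_left _ _, ?_⟩
  intro z hz y hy a b ha hab hby
  have hz2 : 2 ≤ z := (le_max_left _ _).trans hz
  have hzx : x0 ≤ z := Nat.le_of_ceil_le ((le_max_right _ _).trans hz)
  have hzR : (2 : ℝ) ≤ z := by exact_mod_cast hz2
  have hz0 : (0 : ℝ) < z := by linarith
  have hl : 0 < Real.log z := Real.log_pos (by linarith)
  have hb : 1 ≤ b := ha.trans hab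
  have hza : (z : ℝ) ≤ (z : ℝ) ^ a := by
    calc (z : ℝ) = (z : ℝ) ^ (1 : ℝ) := (Real.rpow_one _).symm
      _ ≤ _ := Real.rpow_le_rpow_of_exponent_le (by linarith) ha
  have hab' : (z : ℝ) ^ a ≤ (z : ℝ) ^ b := Real.rpow_le_rpow_of_exponent_le (by linarith) hab
  have h1 := hx0 _ (hzx.trans hza)
  have h2 := hx0 _ (hzx.trans (hza.trans hab'))
  rw [Real.dist_eq] at h1 h2
  have h3 := RN_sub (Nat.floor_le_floor hab' : ⌊(z : ℝ) ^ a⌋₊ ≤ ⌊(z : ℝ) ^ b⌋₊)
  have h4 : ∑ n ∈ Finset.Ioc ⌊(z : ℝ) ^ a⌋₊ ⌊(z : ℝ) ^ b⌋₊, (if n.Prime then 1 / (n:ℝ) else 0) ≤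
      ∑ p ∈ midPrimes z ⌊y⌋₊ with (a < Real.log ((p : ℕ) : ℝ) / Real.log z ∧
        Real.log (p : ℝ) / Real.log z ≤ b), 1 / (p : ℝ) := by
    rw [← Finset.sum_filter]
    apply Finset.sum_le_sum_of_subset_of_nonneg
    · intro p hp
      rw [Finset.mem_filter, Finset.mem_Ioc] at hp
      obtain ⟨⟨hp1, hp2⟩, hpp⟩ := hp
      have hp0 : (0 : ℝ) < p := by exact_mod_cast hpp.pos
      have hap : (z : ℝ) ^ a < p := (Nat.floor_lt (by positivity)).1 hp1
      have hpb : (p : ℝ) ≤ (z : ℝ) ^ b := (Nat.le_floor_iff (by positivity)).1 hp2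
      have hs1 : a < Real.log p / Real.log z := by
        rw [lt_div_iff₀ hl, ← Real.log_rpow hz0]
        exact Real.log_lt_log (by positivity) hap
      have hs2 : Real.log p / Real.log z ≤ b := by
        rw [div_le_iff₀ hl, ← Real.log_rpow hz0]
        exact Real.log_le_log hp0 hpb
      rw [Finset.mem_filter, mem_midPrimes]
      refine ⟨⟨?_, hpp, ?_⟩, hs1, hs2⟩
      · have : (z : ℝ) < p := lt_of_le_of_lt hza hap
        exact_mod_cast this
      · apply Nat.le_floor
        push_cast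
        have h5 : Real.log p / Real.log z ≤ Real.log y / Real.log z / 2 := hs2.trans hby
        have h6 : Real.log p ≤ Real.log y / 2 := by
          rw [div_le_iff₀ hl] at h5
          calc Real.log p ≤ Real.log y / Real.log z / 2 * Real.log z := h5
            _ = Real.log y / 2 := by field_simp
        rw [← Real.log_le_log_iff (by positivity) hy, Real.log_mul hp0.ne' hp0.ne']
        linarith
    · intro i _ _
      positivity
  refine le_trans ?_ h4
  rw [← h3]
  unfold DR at h1 h2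
  rw [Real.log_rpow hz0, Real.log_mul (by linarith) hl.ne'] at h1 h2
  rw [abs_lt] at h1 h2
  linarith [h1.1, h1.2, h2.1, h2.2]

/-- lower bound for the prime counting function. -/
lemma primeCounting_ge {η : ℝ} (hη : 0 < η) :
    ∀ᶠ x : ℝ in atTop, (1 - η) * x / Real.log x ≤ (Nat.primeCounting ⌊x⌋₊ : ℝ) := by
  have h := Pool.Agent.LibPNT.primeCounting_tendsto
  have h1 := h.eventually (eventually_gt_nhds (show (1 : ℝ) - η < 1 by linarith))
  filter_upwards [h1, eventually_gt_atTop 1] with x hx hx1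
  have hl : 0 < Real.log x := Real.log_pos hx1
  have hx0 : 0 < x := by linarith
  rw [lt_div_iff₀ hx0] at hx
  rw [div_le_iff₀ hl]
  exact hx.le

/-- the bound from below up to the exponent `n` -/
def RoughLower (w : ℝ → ℝ) (n : ℕ) : Prop := ∀ ε : ℝ, 0 < ε → ∃ z₀ : ℕ, ∀ z : ℕ, z₀ ≤ z →
  ∀ y : ℝ, (z : ℝ) ≤ y → y ≤ (z : ℝ) ^ n →
    (w (Real.log y / Real.log z) - ε) * y / Real.log z ≤
      ((rough z ⌊y⌋₊).card : ℝ) + 2 * z / Real.log z

lemma pi_sub_pi_ge {ε : ℝ} (hε : 0 < ε) : ∃ z₀ : ℕ, 2 ≤ z₀ ∧ ∀ z : ℕ, z₀ ≤ z → ∀ y : ℝ,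
    (z : ℝ) ≤ y → (Real.log z / Real.log y - ε) * y / Real.log z ≤
      (Nat.primeCounting ⌊y⌋₊ : ℝ) - (Nat.primeCounting z : ℝ) + 2 * z / Real.log z := by
  obtain ⟨x1, hx1⟩ := eventually_atTop.1 (primeCounting_ge (η := ε) hε)
  obtain ⟨x2, hx2⟩ := eventually_atTop.1 (primeCounting_le (η := 1) (by norm_num))
  refine ⟨max 2 (max ⌈x1⌉₊ ⌈x2⌉₊), le_max_left _ _, ?_⟩
  intro z hz y hy
  have hz2 : 2 ≤ z := (le_max_left _ _).trans hz
  have hzx1 : x1 ≤ z := Nat.le_of_ceil_le (((le_max_left _ _).trans (le_max_right _ _)).trans hz)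
  have hzx2 : x2 ≤ z := Nat.le_of_ceil_le (((le_max_right _ _).trans (le_max_right _ _)).trans hz)
  have hzR : (2 : ℝ) ≤ z := by exact_mod_cast hz2
  have hl : 0 < Real.log z := Real.log_pos (by linarith)
  have hly : Real.log z ≤ Real.log y := Real.log_le_log (by linarith) hy
  have hly0 : 0 < Real.log y := by linarith
  have hy0 : 0 < y := by linarith
  have h1 := hx1 y (hzx1.trans hy)
  have h2 := hx2 z hzx2
  rw [Nat.floor_natCast] at h2
  have h3 : (Real.log z / Real.log y - ε) * y / Real.log z ≤ (1 - ε) * y / Real.log y := by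
    have e1 : (Real.log z / Real.log y - ε) * y / Real.log z =
        y / Real.log y - ε * (y / Real.log z) := by field_simp
    have e2 : (1 - ε) * y / Real.log y = y / Real.log y - ε * (y / Real.log y) := by ring
    rw [e1, e2]
    have : y / Real.log y ≤ y / Real.log z := div_le_div_of_nonneg_left hy0.le hl hly
    have := mul_le_mul_of_nonneg_left this hε.le
    linarith
  have h4 : (1 + 1) * (z : ℝ) / Real.log z = 2 * z / Real.log z := by norm_num
  rw [h4] at h2
  linarith

lemma roughLower_two {w : ℝ → ℝ} (hw : IsBuchstab w) : RoughLower w 2 := by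
  intro ε hε
  obtain ⟨z₀, hz₀, h⟩ := pi_sub_pi_ge hε
  refine ⟨z₀, fun z hz y hy1 hy2 => ?_⟩
  have hz2 : 2 ≤ z := hz₀.trans hz
  have hzR : (2 : ℝ) ≤ z := by exact_mod_cast hz2
  have hl : 0 < Real.log z := Real.log_pos (by linarith)
  have hy0 : 0 < y := by linarith
  have hly : Real.log z ≤ Real.log y := Real.log_le_log (by linarith) hy1
  have hly2 : Real.log y ≤ 2 * Real.log z := by
    have := Real.log_le_log hy0 hy2
    rw [Real.log_pow] at this
    exact_mod_cast this
  have hu1 : 1 ≤ Real.log y / Real.log z := by rw [le_div_iff₀ hl]; linarith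
  have hu2 : Real.log y / Real.log z ≤ 2 := by rw [div_le_iff₀ hl]; linarith
  have hwu : w (Real.log y / Real.log z) = Real.log z / Real.log y := by
    have h1 := hw.one_two _ hu1 hu2
    have h2 : Real.log y ≠ 0 := by linarith
    field_simp at h1 ⊢
    linarith
  rw [hwu]
  refine (h z hz y hy1).trans ?_
  have hmid : midPrimes z ⌊y⌋₊ = ∅ := by
    apply Finset.eq_empty_of_forall_notMem
    intro p hp
    rw [mem_midPrimes] at hp
    have h1 : ((p * p : ℕ) : ℝ) ≤ y := (Nat.le_floor_iff hy0.le).1 hp.2.2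
    have h2 : (z : ℝ) < p := by exact_mod_cast hp.1
    push_cast at h1
    nlinarith
  have h1 := rough_card_rec_ge (z := z) hy1 (by omega)
  rw [hmid, Finset.sum_empty, add_zero] at h1
  linarith

lemma sum_mid_ge {w : ℝ → ℝ} (hw : IsBuchstab w) {n : ℕ} (hn : 2 ≤ n) {ε : ℝ} (hε : 0 < ε) :
    ∃ z₀ : ℕ, 2 ≤ z₀ ∧ ∀ z : ℕ, z₀ ≤ z → ∀ y : ℝ, (z : ℝ) ^ 2 ≤ y → y ≤ (z : ℝ) ^ (n + 1) →
      w (Real.log y / Real.log z) - 1 / (Real.log y / Real.log z) - ε ≤
      ∑ p ∈ midPrimes z ⌊y⌋₊, 1 / (p : ℝ) *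
        (w ((Real.log y / Real.log z) / (Real.log p / Real.log z) - 1) /
          (Real.log p / Real.log z)) := by
  have hn0 : (2 : ℝ) ≤ n := by exact_mod_cast hn
  set K : ℝ := n + 2 with hK
  have hK0 : 0 < K := by positivity
  obtain ⟨N, hN⟩ := exists_nat_gt (max (K * n) (4 * K * n * (n + 1) / ε))
  have hN1 : K * n < N := (le_max_left _ _).trans_lt hN
  have hN2 : 4 * K * n * (n + 1) / ε < N := (le_max_right _ _).trans_lt hN
  have hNpos : (0 : ℝ) < N := lt_of_le_of_lt (by positivity) hN1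
  set η : ℝ := min 1 (ε / (4 * N)) with hη
  have hη0 : 0 < η := by rw [hη]; positivity
  have hη2 : η ≤ ε / (4 * N) := min_le_right _ _
  obtain ⟨z₀, hz₀, hcell⟩ := mertens_cell_ge hη0
  refine ⟨z₀, hz₀, fun z hz y hy1 hy2 => ?_⟩
  have hz2 : 2 ≤ z := hz₀.trans hz
  have hzR : (2 : ℝ) ≤ z := by exact_mod_cast hz2
  have hl : 0 < Real.log z := Real.log_pos (by linarith)
  have hy0 : 0 < y := lt_of_lt_of_le (by positivity) hy1
  set u := Real.log y / Real.log z with hu
  have hu2 : 2 ≤ u := by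
    rw [hu, le_div_iff₀ hl]
    have := Real.log_le_log (by positivity) hy1
    rw [Real.log_pow] at this
    exact_mod_cast this
  have hun : u ≤ n + 1 := by
    rw [hu, div_le_iff₀ hl]
    have := Real.log_le_log hy0 hy2
    rw [Real.log_pow] at this
    exact_mod_cast this
  have hu0 : 0 < u := by linarith
  have hPs : ∀ p ∈ midPrimes z ⌊y⌋₊, 1 < Real.log p / Real.log z ∧
      Real.log p / Real.log z ≤ u / 2 := by
    intro p hp
    have h := mem_midPrimes.1 hp
    have hzp : (z : ℝ) < p := by exact_mod_cast h.1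
    constructor
    · rw [lt_div_iff₀ hl, one_mul]
      exact Real.log_lt_log (by linarith) hzp
    · have h1 : ((p * p : ℕ) : ℝ) ≤ y := (Nat.le_floor_iff hy0.le).1 h.2.2
      have hp0 : (0 : ℝ) < p := by linarith
      push_cast at h1
      have h2 := Real.log_le_log (by positivity) h1
      rw [Real.log_mul hp0.ne' hp0.ne'] at h2
      rw [div_le_iff₀ hl, hu]
      field_simp
      linarith
  set δ : ℝ := (u / 2 - 1) / N with hδ
  have hδ0 : 0 ≤ δ := div_nonneg (by linarith) hNpos.le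
  have hδN : (N : ℝ) * δ = u / 2 - 1 := by rw [hδ]; field_simp
  have hend : 1 + (N : ℝ) * δ = u / 2 := by rw [hδN]; ring
  have hδn : δ ≤ n / N := by
    rw [hδ]
    apply div_le_div_of_nonneg_right _ hNpos.le
    linarith
  set g : ℝ → ℝ := fun s => w (u / s - 1) / s with hg
  have hgarg : ∀ s ∈ Set.Icc (1 : ℝ) (1 + N * δ), 1 ≤ u / s - 1 := by
    intro s hs
    rw [hend] at hs
    have : 2 ≤ u / s := by
      rw [le_div_iff₀ (by linarith [hs.1])]
      linarith [hs.2]
    linarith
  have hg0 : ∀ s ∈ Set.Icc (1 : ℝ) (1 + N * δ), 0 ≤ g s := by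
    intro s hs
    exact div_nonneg (hw.nonneg _ (hgarg s hs)) (by linarith [hs.1])
  have hg1 : ∀ s ∈ Set.Icc (1 : ℝ) (1 + N * δ), g s ≤ 1 := by
    intro s hs
    have h1 : 0 < s := by linarith [hs.1]
    simp only [hg]
    rw [div_le_one h1]
    exact (hw.le_one _ (hgarg s hs)).trans hs.1
  have hinv : ∀ s ∈ Set.Icc (1 : ℝ) (1 + N * δ), ∀ t ∈ Set.Icc (1 : ℝ) (1 + N * δ),
      |1 / s - 1 / t| ≤ |s - t| := by
    intro s hs t ht
    have hs0 : 0 < s := by linarith [hs.1]
    have ht0 : 0 < t := by linarith [ht.1]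
    have : 1 / s - 1 / t = (t - s) / (s * t) := by field_simp
    rw [this, abs_div, abs_of_pos (mul_pos hs0 ht0), abs_sub_comm]
    apply div_le_self (abs_nonneg _)
    nlinarith [hs.1, ht.1]
  have hgL : ∀ s ∈ Set.Icc (1 : ℝ) (1 + N * δ), ∀ t ∈ Set.Icc (1 : ℝ) (1 + N * δ),
      |g s - g t| ≤ K * |s - t| := by
    intro s hs t ht
    have hs0 : 0 < s := by linarith [hs.1]
    have ht0 : 0 < t := by linarith [ht.1]
    have e : g s - g t = (w (u / s - 1) - w (u / t - 1)) * (1 / s) +
        w (u / t - 1) * (1 / s - 1 / t) := by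
      simp only [hg]
      ring
    rw [e]
    refine (abs_add_le _ _).trans ?_
    rw [abs_mul, abs_mul]
    have h1 := hw.lip _ _ (hgarg s hs) (hgarg t ht)
    have h2 : |u / s - 1 - (u / t - 1)| = u * |1 / s - 1 / t| := by
      rw [← abs_of_pos hu0, ← abs_mul, abs_of_pos hu0]
      congr 1
      ring
    rw [h2] at h1
    have h3 : |1 / s| ≤ 1 := by
      rw [abs_of_pos (by positivity), div_le_one hs0]
      exact hs.1
    have h4 : |w (u / t - 1)| ≤ 1 := by
      rw [abs_of_nonneg (hw.nonneg _ (hgarg t ht))]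
      exact hw.le_one _ (hgarg t ht)
    have h5 := hinv s hs t ht
    have h6 : |w (u / s - 1) - w (u / t - 1)| * |1 / s| ≤ u * |s - t| := by
      calc _ ≤ |w (u / s - 1) - w (u / t - 1)| * 1 := mul_le_mul_of_nonneg_left h3 (abs_nonneg _)
        _ ≤ u * |s - t| := by
          rw [mul_one]
          exact h1.trans (mul_le_mul_of_nonneg_left h5 hu0.le)
    have h7 : |w (u / t - 1)| * |1 / s - 1 / t| ≤ 1 * |s - t| :=
      mul_le_mul h4 h5 (abs_nonneg _) (by norm_num)
    have h8 : (u + 1) * |s - t| ≤ K * |s - t| :=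
      mul_le_mul_of_nonneg_right (by rw [hK]; linarith) (abs_nonneg _)
    linarith
  have hφc : ContinuousOn (fun x : ℝ => 1 / x) (Set.Icc 1 (1 + N * δ)) := by
    apply ContinuousOn.div continuousOn_const continuousOn_id
    intro s hs
    simp only [id]
    linarith [hs.1]
  have hcell' : ∀ a b : ℝ, 1 ≤ a → a ≤ b → b ≤ 1 + N * δ →
      (∫ x in a..b, 1 / x) - η ≤
      ∑ p ∈ midPrimes z ⌊y⌋₊ with (a < Real.log ((p : ℕ) : ℝ) / Real.log z ∧
        Real.log (p : ℝ) / Real.log z ≤ b), 1 / (p : ℝ) := by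
    intro a b ha hab hb
    rw [integral_inv_cell ha hab]
    rw [hend] at hb
    exact hcell z hz y hy0 a b ha hab hb
  have key := integral_le_sum_aux (P := midPrimes z ⌊y⌋₊) (wt := fun p => 1 / (p : ℝ))
    (s := fun p => Real.log p / Real.log z) (g := g) (φ := fun x => 1 / x) (A := 1) (δ := δ)
    (K := K) (η := η) (N := N) hδ0 hK0.le (fun p _ => by positivity)
    hg0 hg1 hgL (fun x hx => by have := hx.1; positivity) hφc hη0.le hcell' N le_rfl
  have hfull : (midPrimes z ⌊y⌋₊).filter (fun p : ℕ => (1 < Real.log (p : ℝ) / Real.log z ∧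
      Real.log (p : ℝ) / Real.log z ≤ 1 + N * δ)) = midPrimes z ⌊y⌋₊ := by
    apply Finset.filter_true_of_mem
    intro p hp
    rw [hend]
    exact hPs p hp
  have hlogu : Real.log (u / 2) ≤ n := by
    have := Real.log_le_sub_one_of_pos (show 0 < u / 2 by positivity)
    linarith
  have hlogu0 : 0 ≤ Real.log (u / 2) := Real.log_nonneg (by linarith)
  rw [hfull, hend] at key
  have hgc : ContinuousOn g (Set.Icc 1 (1 + N * δ)) := by
    have : LipschitzOnWith (Real.toNNReal K) g (Set.Icc 1 (1 + N * δ)) := by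
      apply LipschitzOnWith.of_dist_le_mul
      intro x hx y hy
      rw [Real.dist_eq, Real.dist_eq, Real.coe_toNNReal _ hK0.le]
      exact hgL x hx y hy
    exact this.continuousOn
  have hle : (1 : ℝ) ≤ u / 2 := by linarith
  have hsub : Set.uIcc 1 (u / 2) ⊆ Set.Icc 1 (1 + N * δ) := by
    rw [Set.uIcc_of_le hle, hend]
  have hi1 : IntervalIntegrable (fun x => g x * (1 / x)) volume 1 (u / 2) :=
    ((hgc.mono hsub).mul (hφc.mono hsub)).intervalIntegrable
  have hi2 : IntervalIntegrable (fun x => 2 * (K * δ) * (1 / x)) volume 1 (u / 2) :=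
    (continuousOn_const.mul (hφc.mono hsub)).intervalIntegrable
  have hsplit : ∫ x in (1 : ℝ)..(u / 2), (g x - 2 * (K * δ)) * (1 / x) =
      (∫ x in (1 : ℝ)..(u / 2), g x * (1 / x)) - 2 * (K * δ) * (Real.log (u / 2) - Real.log 1) := by
    rw [← integral_inv_cell le_rfl hle, ← intervalIntegral.integral_const_mul,
      ← intervalIntegral.integral_sub hi1 hi2]
    apply intervalIntegral.integral_congr
    intro x _
    simp only
    ring
  have hgint : ∫ x in (1 : ℝ)..(u / 2), g x * (1 / x) = w u - 1 / u := by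
    have h1 := buchstab_integral hw.continuousOn hu2
    have h2 := hw.eqn u hu2
    have h3 : ∫ t in (1:ℝ)..(u-1), w t = u * w u - 1 := by linarith
    rw [h3] at h1
    simp only [hg]
    rw [h1]
    field_simp
  rw [hsplit, hgint, Real.log_one, sub_zero] at key
  refine le_trans ?_ key
  have e1 : 2 * (K * δ) * Real.log (u / 2) ≤ ε / 2 := by
    calc 2 * (K * δ) * Real.log (u / 2) ≤ 2 * (K * (n / N)) * n := by
          gcongr
      _ ≤ ε / 2 := by
          rw [div_lt_iff₀ hε] at hN2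
          have : 2 * (K * (n / N)) * n = (2 * K * n * n) / N := by ring
          rw [this, div_le_iff₀ hNpos]
          have h5 : 0 ≤ 2 * K * n := by positivity
          nlinarith
  have e2 : (N : ℝ) * η ≤ ε / 2 := by
    calc (N : ℝ) * η ≤ N * (ε / (4 * N)) := by
          gcongr
      _ = ε / 4 := by
          field_simp
      _ ≤ ε / 2 := by linarith
  linarith

lemma roughLower_succ {w : ℝ → ℝ} (hw : IsBuchstab w) {n : ℕ} (hn : 2 ≤ n)
    (ih : RoughLower w n) : RoughLower w (n + 1) := by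
  intro ε hε
  have hn0 : (2 : ℝ) ≤ n := by exact_mod_cast hn
  set C : ℝ := n + 1 with hC
  have hC0 : 0 < C := by positivity
  obtain ⟨z₁, hz₁⟩ := ih (ε / (4 * C)) (by positivity)
  obtain ⟨z₂, hz₂2, hz₂⟩ := sum_mid_ge hw hn (show 0 < ε / 4 by positivity)
  obtain ⟨z₂', hz₂2', hz₂'⟩ := sum_mid_le hw hn (show 0 < ε / 4 by positivity)
  obtain ⟨z₃, hz₃2, hz₃⟩ := pi_sub_pi_ge (show 0 < ε / 4 by positivity)
  obtain ⟨z₄, hz₄⟩ := roughLower_two hw ε hε
  obtain ⟨x5, hx5⟩ := eventually_atTop.1 (primeCounting_le (η := 1) (by norm_num))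
  obtain ⟨x6, hx6⟩ := eventually_atTop.1
    (Real.tendsto_log_atTop.eventually_ge_atTop (48 / ε))
  refine ⟨max (max (max z₁ z₂) z₂') (max (max z₃ z₄) (max ⌈x5⌉₊ ⌈x6⌉₊)),
    fun z hz y hy1 hy2 => ?_⟩
  have hz1 : z₁ ≤ z :=
    (((le_max_left _ _).trans (le_max_left _ _)).trans (le_max_left _ _)).trans hz
  have hz2 : z₂ ≤ z :=
    (((le_max_right _ _).trans (le_max_left _ _)).trans (le_max_left _ _)).trans hz
  have hz2b : z₂' ≤ z := ((le_max_right _ _).trans (le_max_left _ _)).trans hz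
  have hz3 : z₃ ≤ z := (((le_max_left _ _).trans (le_max_left _ _)).trans (le_max_right _ _)).trans hz
  have hz4 : z₄ ≤ z := (((le_max_right _ _).trans (le_max_left _ _)).trans (le_max_right _ _)).trans hz
  have hz5 : x5 ≤ z := Nat.le_of_ceil_le
    (((le_max_left _ _).trans ((le_max_right _ _).trans (le_max_right _ _))).trans hz)
  have hz6 : x6 ≤ z := Nat.le_of_ceil_le
    (((le_max_right _ _).trans ((le_max_right _ _).trans (le_max_right _ _))).trans hz)
  rcases le_total y ((z : ℝ) ^ 2) with hcase | hcase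
  · exact hz₄ z hz4 y hy1 hcase
  have hz2' : 2 ≤ z := hz₂2.trans hz2
  have hzR : (2 : ℝ) ≤ z := by exact_mod_cast hz2'
  have hl : 0 < Real.log z := Real.log_pos (by linarith)
  have hy0 : 0 < y := by linarith
  have hly : 0 < Real.log y := lt_of_lt_of_le hl (Real.log_le_log (by linarith) hy1)
  have hs1 := hz₂ z hz2 y hcase hy2
  have hs2 := (hz₂' z hz2b y hcase hy2).2
  have hpi := hz₃ z hz3 y hy1
  set u := Real.log y / Real.log z with hu
  have hinvu : Real.log z / Real.log y = 1 / u := by rw [hu, one_div_div]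
  rw [hinvu] at hpi
  have hrec := rough_card_rec_ge (z := z) hy1 (by omega)
  have hterm : ∀ p ∈ midPrimes z ⌊y⌋₊,
      (y / Real.log z) * (1 / (p : ℝ) * (w (u / (Real.log p / Real.log z) - 1) /
        (Real.log p / Real.log z))) -
      (y / Real.log z) * (ε / (4 * C)) * (1 / (p : ℝ)) - 3 * Real.sqrt y / Real.log z ≤
      ((rough p ⌊y / p⌋₊).card : ℝ) - 1 := by
    intro p hp
    have h := mem_midPrimes.1 hp
    have hzp : (z : ℝ) < p := by exact_mod_cast h.1
    have hp0 : (0 : ℝ) < p := by linarith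
    have hlp : Real.log z < Real.log p := Real.log_lt_log (by linarith) hzp
    have hlp0 : 0 < Real.log p := by linarith
    have hpp : (p : ℝ) * p ≤ y := by
      have h1 : ((p * p : ℕ) : ℝ) ≤ y := (Nat.le_floor_iff hy0.le).1 h.2.2
      exact_mod_cast h1
    have h1 : (p : ℝ) ≤ y / p := by rw [le_div_iff₀ hp0]; exact hpp
    have h2 : y / p ≤ (p : ℝ) ^ n := by
      rw [div_le_iff₀ hp0]
      calc y ≤ (z : ℝ) ^ (n + 1) := hy2
        _ ≤ (p : ℝ) ^ (n + 1) := pow_le_pow_left₀ (by linarith) hzp.le _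
        _ = (p : ℝ) ^ n * p := pow_succ _ _
    have h3 := hz₁ p (hz1.trans h.1.le) (y / p) h1 h2
    have h4 : Real.log (y / p) / Real.log p = u / (Real.log p / Real.log z) - 1 := by
      rw [Real.log_div hy0.ne' hp0.ne', hu]
      field_simp
    rw [h4] at h3
    set W := w (u / (Real.log p / Real.log z) - 1) with hW
    have h5 : (y / Real.log z) * (1 / (p : ℝ) * (W / (Real.log p / Real.log z))) -
        (y / Real.log z) * (ε / (4 * C)) * (1 / (p : ℝ)) ≤
        (W - ε / (4 * C)) * (y / p) / Real.log p := by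
      have h6 : (W - ε / (4 * C)) * (y / p) / Real.log p =
        (y / Real.log z) * (1 / (p : ℝ) * (W / (Real.log p / Real.log z))) -
        (y / Real.log p) * (ε / (4 * C)) * (1 / (p : ℝ)) := by
        field_simp
      rw [h6]
      apply sub_le_sub_left
      apply mul_le_mul_of_nonneg_right _ (by positivity)
      apply mul_le_mul_of_nonneg_right _ (by positivity)
      exact div_le_div_of_nonneg_left hy0.le hl hlp.le
    have hpsq : (p : ℝ) ≤ Real.sqrt y := Real.le_sqrt_of_sq_le (by rw [sq]; exact hpp)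
    have h7 : 2 * (p : ℝ) / Real.log p ≤ 2 * Real.sqrt y / Real.log z := by
      apply div_le_div₀ (by positivity) (by linarith) hl hlp.le
    have h8 : 1 ≤ Real.sqrt y / Real.log z := by
      rw [le_div_iff₀ hl, one_mul]
      have := Real.log_le_sub_one_of_pos (show (0 : ℝ) < z by linarith)
      linarith
    have h9 : 3 * Real.sqrt y / Real.log z = 2 * Real.sqrt y / Real.log z +
        Real.sqrt y / Real.log z := by ring
    rw [h9]
    linarith
  have hsum := Finset.sum_le_sum hterm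
  have hsplit : ∑ p ∈ midPrimes z ⌊y⌋₊, ((y / Real.log z) * (1 / (p : ℝ) *
      (w (u / (Real.log p / Real.log z) - 1) / (Real.log p / Real.log z))) -
      (y / Real.log z) * (ε / (4 * C)) * (1 / (p : ℝ)) - 3 * Real.sqrt y / Real.log z) =
      (y / Real.log z) * (∑ p ∈ midPrimes z ⌊y⌋₊, (1 / (p : ℝ) *
      (w (u / (Real.log p / Real.log z) - 1) / (Real.log p / Real.log z)))) -
      (y / Real.log z) * (ε / (4 * C)) * (∑ p ∈ midPrimes z ⌊y⌋₊, 1 / (p : ℝ)) -
      ((midPrimes z ⌊y⌋₊).card : ℝ) * (3 * Real.sqrt y / Real.log z) := by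
    rw [Finset.sum_sub_distrib, Finset.sum_sub_distrib, Finset.mul_sum, Finset.mul_sum,
      Finset.sum_const, nsmul_eq_mul]
  rw [hsplit] at hsum
  have hyl : 0 < y / Real.log z := by positivity
  have e1 := mul_le_mul_of_nonneg_left hs1 hyl.le
  have e2 : (y / Real.log z) * (ε / (4 * C)) * ∑ p ∈ midPrimes z ⌊y⌋₊, 1 / (p : ℝ) ≤
      (y / Real.log z) * (ε / 4) := by
    calc _ ≤ (y / Real.log z) * (ε / (4 * C)) * C :=
          mul_le_mul_of_nonneg_left hs2 (by positivity)
      _ = _ := by field_simp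
  have hzsq : (z : ℝ) ≤ Real.sqrt y := Real.le_sqrt_of_sq_le hcase
  have hsq0 : 0 < Real.sqrt y := by linarith
  have hcardmid : ((midPrimes z ⌊y⌋₊).card : ℝ) ≤ 2 * Real.sqrt y / Real.log (Real.sqrt y) := by
    have h1 : midPrimes z ⌊y⌋₊ ⊆ prs ⌊Real.sqrt y⌋₊ := by
      intro p hp
      have h := mem_midPrimes.1 hp
      rw [mem_prs]
      refine ⟨Nat.le_floor ?_, h.2.1⟩
      have h1 : ((p * p : ℕ) : ℝ) ≤ y := (Nat.le_floor_iff hy0.le).1 h.2.2
      push_cast at h1
      exact Real.le_sqrt_of_sq_le (by rw [sq]; exact h1)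
    have h2 := Finset.card_le_card h1
    rw [card_prs] at h2
    have h3 := hx5 (Real.sqrt y) (hz5.trans hzsq)
    have h4 : ((midPrimes z ⌊y⌋₊).card : ℝ) ≤ (Nat.primeCounting ⌊Real.sqrt y⌋₊ : ℝ) := by
      exact_mod_cast h2
    refine h4.trans (h3.trans (le_of_eq ?_))
    norm_num
  have hlsq : 48 / ε ≤ Real.log (Real.sqrt y) := hx6 _ (hz6.trans hzsq)
  have hlsq0 : 0 < Real.log (Real.sqrt y) := lt_of_lt_of_le (by positivity) hlsq
  have e5 : ((midPrimes z ⌊y⌋₊).card : ℝ) * (3 * Real.sqrt y / Real.log z) ≤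
      (y / Real.log z) * (ε / 4) := by
    calc ((midPrimes z ⌊y⌋₊).card : ℝ) * (3 * Real.sqrt y / Real.log z)
        ≤ (2 * Real.sqrt y / Real.log (Real.sqrt y)) * (3 * Real.sqrt y / Real.log z) :=
          mul_le_mul_of_nonneg_right hcardmid (by positivity)
      _ = (y / Real.log z) * (6 / Real.log (Real.sqrt y)) := by
          have : Real.sqrt y * Real.sqrt y = y := Real.mul_self_sqrt hy0.le
          field_simp
          nlinarith [this]
      _ ≤ (y / Real.log z) * (ε / 4) := by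
          apply mul_le_mul_of_nonneg_left _ hyl.le
          rw [div_le_iff₀ hlsq0]
          rw [div_le_iff₀ hε] at hlsq
          nlinarith
  have e3 : (1 / u - ε / 4) * y / Real.log z = (y / Real.log z) * (1 / u - ε / 4) := by ring
  have e4 : (w u - ε) * y / Real.log z = (y / Real.log z) * (w u - ε) := by ring
  rw [e3] at hpi
  rw [e4]
  have e6 : (y / Real.log z) * (w u - ε) = (y / Real.log z) * (1 / u - ε / 4) +
      ((y / Real.log z) * (w u - 1 / u - ε / 4) - (y / Real.log z) * (ε / 4) -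
        (y / Real.log z) * (ε / 4)) := by ring
  rw [e6]
  linarith

theorem rough_lower_gen {w : ℝ → ℝ} (hw : IsBuchstab w) {U ε : ℝ} (hε : 0 < ε) :
    ∃ z₀ : ℕ, ∀ z : ℕ, z₀ ≤ z → ∀ y : ℝ, (z:ℝ) ≤ y → y ≤ (z:ℝ)^U →
      (w (Real.log y / Real.log z) - ε) * y / Real.log z ≤
        ((rough z ⌊y⌋₊).card : ℝ) + 2 * z / Real.log z := by
  have hall : ∀ n : ℕ, RoughLower w (n + 2) := by
    intro n
    induction n with
    | zero => exact roughLower_two hw
    | succ n ih => exact roughLower_succ hw (by omega) ih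
  obtain ⟨n, hn⟩ := exists_nat_ge U
  obtain ⟨z₀, h⟩ := hall n ε hε
  refine ⟨max 1 z₀, fun z hz y hy1 hy2 => h z ((le_max_right _ _).trans hz) y hy1 ?_⟩
  have hz1 : (1 : ℝ) ≤ z := by exact_mod_cast (le_max_left _ _).trans hz
  refine hy2.trans ?_
  rw [← Real.rpow_natCast]
  apply Real.rpow_le_rpow_of_exponent_le hz1
  push_cast
  linarith

end Pool.Agent.LibMaier
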